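import Pool.Agent.N926.Qf.C
import Pool.Agent.N926.Sup2.H
import Pool.Agent.N926.Sup2.G
import Pool.Agent.N926.F37.C

set_option autoImplicit false
set_option linter.unusedSectionVars false
set_option linter.unusedVariables false

namespace Pool.Agent.N926.Qg

open Finset Pool.Agent.N926.Sup Pool.Agent.N926.Sup2

section
variable {p : ℕ} [hp : Fact p.Prime]

theorem pow_exp {z : ℚ} (hz : Dv p 1 z) (N : ℕ) :
    Dv p 5 ((1-z)^N - (1 - N*z + ((N.choose 2:ℕ):ℚ)*z^2 - ((N.choose 3:ℕ):ℚ)*z^3 + ((N.choose 4:ℕ):ℚ)*z^4)) := by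
  induction N with
  | zero => left; simp
  | succ N ih =>
    have c2 : (((N+1).choose 2 : ℕ):ℚ) = (N:ℚ) + ((N.choose 2:ℕ):ℚ) := by
      have h := Nat.choose_succ_succ' N 1
      simp only [Nat.choose_one_right] at h
      exact_mod_cast h
    have c3 : (((N+1).choose 3 : ℕ):ℚ) = ((N.choose 2:ℕ):ℚ) + ((N.choose 3:ℕ):ℚ) := by
      have h := Nat.choose_succ_succ' N 2
      exact_mod_cast h
    have c4 : (((N+1).choose 4 : ℕ):ℚ) = ((N.choose 3:ℕ):ℚ) + ((N.choose 4:ℕ):ℚ) := by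
      have h := Nat.choose_succ_succ' N 3
      exact_mod_cast h
    rw [c2, c3, c4]
    have e : (1-z)^(N+1) - (1 - ((N+1:ℕ):ℚ)*z + ((N:ℚ) + ((N.choose 2:ℕ):ℚ))*z^2 - (((N.choose 2:ℕ):ℚ) + ((N.choose 3:ℕ):ℚ))*z^3 + (((N.choose 3:ℕ):ℚ) + ((N.choose 4:ℕ):ℚ))*z^4)
      = (1-z) * ((1-z)^N - (1 - N*z + ((N.choose 2:ℕ):ℚ)*z^2 - ((N.choose 3:ℕ):ℚ)*z^3 + ((N.choose 4:ℕ):ℚ)*z^4)) + (-(((N.choose 4:ℕ):ℤ):ℚ)) * z^5 := by
      push_cast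
      ring
    rw [e]
    have h1 : Dv p 0 (1 - z) := Dv.one.sub (hz.mono (by norm_num))
    refine (Dv.mul0' h1 ih).add ?_
    have h5 := hz.pow 5
    have h6 : Dv p 5 (z^5) := h5.mono (by norm_num)
    exact Dv.mul0' (Dv.int _).neg h6

theorem C2 (p : ℕ) : 2 * (((p+1).choose 2 : ℕ):ℚ) = ((p:ℚ)+1)*p := by
  have h := Nat.choose_succ_right_eq (p+1) 1
  rw [Nat.choose_one_right, Nat.add_sub_cancel] at h
  have h' : (((p+1).choose 2 : ℕ):ℚ) * 2 = ((p:ℚ)+1)*p := by exact_mod_cast h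
  linarith

theorem C3 {p : ℕ} (h1 : 1 ≤ p) : 3 * (((p+1).choose 3 : ℕ):ℚ) = (((p+1).choose 2 : ℕ):ℚ)*((p:ℚ)-1) := by
  have h := Nat.choose_succ_right_eq (p+1) 2
  have h' : (((p+1).choose 3 : ℕ):ℚ) * 3 = (((p+1).choose 2 : ℕ):ℚ)*(((p+1-2 : ℕ)):ℚ) := by exact_mod_cast h
  have e : (((p+1-2 : ℕ)):ℚ) = (p:ℚ) - 1 := by
    rw [Nat.cast_sub (by omega)]; push_cast; ring
  rw [e] at h'
  linarith

theorem C4 {p : ℕ} (h1 : 2 ≤ p) : 4 * (((p+1).choose 4 : ℕ):ℚ) = (((p+1).choose 3 : ℕ):ℚ)*((p:ℚ)-2) := by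
  have h := Nat.choose_succ_right_eq (p+1) 3
  have h' : (((p+1).choose 4 : ℕ):ℚ) * 4 = (((p+1).choose 3 : ℕ):ℚ)*(((p+1-3 : ℕ)):ℚ) := by exact_mod_cast h
  have e : (((p+1-3 : ℕ)):ℚ) = (p:ℚ) - 2 := by
    rw [Nat.cast_sub (by omega)]; push_cast; ring
  rw [e] at h'
  linarith

/-- `C(p+1,2)` is divisible by `p` for odd `p` -/
theorem C2_dv (h2 : p ≠ 2) : Dv p 1 (((p+1).choose 2 : ℕ):ℚ) := by
  refine Dv.of_unit_mul (val_two h2) (by norm_num) ?_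
  rw [C2]
  exact Dv.mul0' (by simpa using (Dv.nat (p := p) (p+1))) Dv.p1

theorem L3 (h2 : p ≠ 2) {z : ℚ} (hz : Dv p 1 z) : Dv p 3 ((1-z)^(p+1) - 1 + ((p:ℚ)+1)*z) := by
  have h := pow_exp hz (p+1)
  have a2 : Dv p 3 ((((p+1).choose 2 : ℕ):ℚ)*z^2) := ((C2_dv h2).mul (hz.pow 2)).mono (by norm_num)
  have a3 : Dv p 3 ((((p+1).choose 3 : ℕ):ℚ)*z^3) := Dv.mul0' (Dv.nat _) ((hz.pow 3).mono (by norm_num))
  have a4 : Dv p 3 ((((p+1).choose 4 : ℕ):ℚ)*z^4) := Dv.mul0' (Dv.nat _) ((hz.pow 4).mono (by norm_num))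
  have := (((h.mono (by norm_num : (3:ℤ) ≤ 5)).add a2).sub a3).add a4
  refine (show (1-z)^(p+1) - 1 + ((p:ℚ)+1)*z = _ from ?_) ▸ this
  push_cast
  ring

end
end Pool.Agent.N926.Qg
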