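import Pool.Agent.N926.Qg.A

set_option autoImplicit false
set_option linter.unusedSectionVars false
set_option linter.unusedVariables false

namespace Pool.Agent.N926.Qg

open Finset Pool.Agent.N926.Sup Pool.Agent.N926.Sup2

/-- `y + i + 1` -/
def w (y i : ℕ) : ℚ := (y:ℚ) + i + 1

def z (p y i : ℕ) : ℚ := p / (((p:ℚ)+1) * w y i)

def u (p y n : ℕ) : ℚ := ∏ i ∈ range n, (1 - z p y i)^(p+1)

theorem w_pos (y i : ℕ) : 0 < w y i := by unfold w; positivity

theorem u_zero (p y : ℕ) : u p y 0 = 1 := by simp [u]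

theorem u_succ (p y n : ℕ) : u p y (n+1) = u p y n * (1 - z p y n)^(p+1) := by
  unfold u
  rw [prod_range_succ]

theorem wz (p y i : ℕ) : w y i * (((p:ℚ)+1) * z p y i) = p := by
  have h := (w_pos y i).ne'
  have h1 : ((p:ℚ)+1) ≠ 0 := by positivity
  unfold z
  field_simp

def E (p y i : ℕ) : ℚ := w y i * u p y (i+1) - (w y i - p) * u p y i

theorem tele (p y n : ℕ) : ∑ i ∈ range n, E p y i = ((y:ℚ)+n) * u p y n - y + ((p:ℚ)-1) * ∑ i ∈ range n, u p y i := by
  induction n with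
  | zero => simp [u_zero]
  | succ n ih =>
    rw [sum_range_succ, ih, sum_range_succ]
    unfold E w
    push_cast
    ring

theorem E_eq (p y i : ℕ) : E p y i = u p y i * (w y i * ((1 - z p y i)^(p+1) - 1 + ((p:ℚ)+1) * z p y i)) := by
  unfold E
  rw [u_succ]
  linear_combination (u p y i) * (- wz p y i)

section
variable {p : ℕ} [hp : Fact p.Prime] {y : ℕ}

theorem unit_p1 : padicValRat p ((p:ℚ)+1) = 0 := by
  have h : ¬ (p:ℤ) ∣ (p:ℤ) + 1 := by
    intro h
    have h1 : (p:ℤ) ∣ 1 := (Int.dvd_add_right (dvd_refl _)).1 h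
    have := Int.le_of_dvd one_pos h1
    have h2 := hp.out.two_le
    omega
  have := unit_int (p := p) h
  push_cast at this
  exact this

theorem unit_w (hy : p ∣ y) {i : ℕ} (hi : i + 1 < p) : padicValRat p (w y i) = 0 := by
  have h : ¬ (p:ℤ) ∣ (y:ℤ) + i + 1 := by
    intro h
    have hy' : (p:ℤ) ∣ (y:ℤ) := by exact_mod_cast hy
    rw [add_assoc] at h
    have h1 : (p:ℤ) ∣ (i:ℤ) + 1 := (Int.dvd_add_right hy').1 h
    have := Int.le_of_dvd (by positivity) h1
    omega
  have := unit_int (p := p) h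
  push_cast at this
  exact this

theorem w_int (i : ℕ) : Dv p 0 (w y i) := by
  have := Dv.nat (p := p) (y+i+1)
  push_cast at this
  exact this

theorem z_dv (hy : p ∣ y) {i : ℕ} (hi : i + 1 < p) : Dv p 1 (z p y i) := by
  unfold z
  refine Dv.div_unit Dv.p1 ?_
  rw [padicValRat.mul (by positivity) (w_pos y i).ne', unit_p1, unit_w hy hi, add_zero]

theorem u_one (hy : p ∣ y) : ∀ n : ℕ, n < p → Dv p 1 (u p y n - 1) := by
  intro n
  induction n with
  | zero => intro _; rw [u_zero, sub_self]; exact Dv.zero _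
  | succ n ih =>
    intro hn
    have h1 := ih (by omega)
    have hz := z_dv hy hn
    have h2 : Dv p 1 ((1 - z p y n)^(p+1) - 1) := by
      have h := pow_exp hz (p+1)
      have a1 : Dv p 1 (((p+1:ℕ):ℚ) * z p y n) := Dv.mul0' (Dv.nat _) hz
      have a2 : Dv p 1 ((((p+1).choose 2 : ℕ):ℚ)*(z p y n)^2) := Dv.mul0' (Dv.nat _) ((hz.pow 2).mono (by norm_num))
      have a3 : Dv p 1 ((((p+1).choose 3 : ℕ):ℚ)*(z p y n)^3) := Dv.mul0' (Dv.nat _) ((hz.pow 3).mono (by norm_num))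
      have a4 : Dv p 1 ((((p+1).choose 4 : ℕ):ℚ)*(z p y n)^4) := Dv.mul0' (Dv.nat _) ((hz.pow 4).mono (by norm_num))
      have := ((((h.mono (by norm_num : (1:ℤ) ≤ 5)).sub a1).add a2).sub a3).add a4
      refine (show (1 - z p y n)^(p+1) - 1 = _ from ?_) ▸ this
      ring
    rw [u_succ]
    have e : u p y n * (1 - z p y n)^(p+1) - 1 = (u p y n - 1) + ((u p y n - 1) + 1) * ((1 - z p y n)^(p+1) - 1) := by ring
    rw [e]
    exact h1.add (Dv.mul0' ((h1.mono (by norm_num)).add Dv.one) h2)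

theorem u_int (hy : p ∣ y) {n : ℕ} (hn : n < p) : Dv p 0 (u p y n) := by
  have h := ((u_one hy n hn).mono (by norm_num : (0:ℤ) ≤ 1)).add Dv.one
  simpa using h

theorem E3 (h2 : p ≠ 2) (hy : p ∣ y) {i : ℕ} (hi : i + 1 < p) : Dv p 3 (E p y i) := by
  rw [E_eq]
  exact Dv.mul0' (u_int hy (by omega)) (Dv.mul0' (w_int i) (L3 h2 (z_dv hy hi)))

/-- the full block -/
theorem block_eq (y : ℕ) : ((p:ℚ)-1) * ∑ i ∈ range p, u p y i =
    ∑ i ∈ range (p-1), E p y i - y * (u p y (p-1) - 1) := by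
  obtain ⟨q, hq⟩ : ∃ q, p = q + 1 := ⟨p-1, by have := hp.out.pos; omega⟩
  have e : p - 1 = q := by omega
  rw [e, tele, ]
  have e2 : ∑ i ∈ range p, u p y i = ∑ i ∈ range q, u p y i + u p y q := by
    conv_lhs => rw [hq]
    rw [sum_range_succ, ← hq]
  have e3 : (p:ℚ) = q + 1 := by exact_mod_cast hq
  rw [e2]
  linear_combination (u p y q) * e3

theorem unit_p_sub : padicValRat p ((p:ℚ)-1) = 0 := by
  have h : ¬ (p:ℤ) ∣ (p:ℤ) - 1 := by
    intro h
    have h1 : (p:ℤ) ∣ 1 := by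
      have := dvd_sub (dvd_refl (p:ℤ)) h
      simpa using this
    have := Int.le_of_dvd one_pos h1
    have h2 := hp.out.two_le
    omega
  have := unit_int (p := p) h
  push_cast at this
  exact this

theorem p_sub_ne : ((p:ℚ)-1) ≠ 0 := by
  have := hp.out.one_lt
  have : (1:ℚ) < p := by exact_mod_cast this
  linarith

theorem dv_y (hy : p^2 ∣ y) : Dv p 2 (y:ℚ) := by
  have h : ((p:ℤ)^2) ∣ (y:ℤ) := by exact_mod_cast hy
  have := Dv.of_dvd (p := p) h
  simpa using this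

/-- block sums at level `p^3` -/
theorem block3 (h2 : p ≠ 2) (hy : p^2 ∣ y) : Dv p 3 (∑ i ∈ range p, u p y i) := by
  have hy1 : p ∣ y := (dvd_pow_self p (by norm_num)).trans hy
  refine Dv.of_unit_mul unit_p_sub p_sub_ne ?_
  rw [block_eq]
  have hpos := hp.out.pos
  refine (Dv.sum _ _ fun i hi => ?_).sub ?_
  · rw [mem_range] at hi
    exact E3 h2 hy1 (by omega)
  · have := (dv_y hy).mul (u_one hy1 (p-1) (by omega))
    exact this.mono (by norm_num)

end
end Pool.Agent.N926.Qg
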