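import Pool.Agent.N926.Qg.B

set_option autoImplicit false
set_option linter.unusedSectionVars false
set_option linter.unusedVariables false

namespace Pool.Agent.N926.Qg

open Finset Pool.Agent.N926.Sup Pool.Agent.N926.Sup2

section
variable {p : ℕ} [hp : Fact p.Prime] {y : ℕ}

theorem dv_of_eq {n : ℤ} {a b : ℚ} (h : a = b) (hb : Dv p n b) : Dv p n a := h ▸ hb

/-- `∑_{i<p} 1/i^2 ≡ 0` -/
theorem Hs2_full (h2 : p ≠ 2) (h3 : p ≠ 3) : Dv p 1 (Hs 2 (p-1)) := by
  have hpos := hp.out.pos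
  obtain ⟨n, h1, h4⟩ := Br_Hs (p := p) 2 (p-1) (by omega)
  have h5 : ∑ i ∈ range (p-1), ((((i+1:ℕ) : ZMod p))⁻¹)^2 = 0 := by
    have h := sum_inv2 p h2 h3
    rw [sum_univ_eq] at h
    obtain ⟨q, hq⟩ : ∃ q, p = q + 1 := ⟨p-1, by omega⟩
    have e : p - 1 = q := by omega
    rw [show (range p) = range (q+1) by rw [← hq], sum_range_succ'] at h
    rw [e]
    simpa using h
  rw [h5] at h4
  have h6 : Dv p 1 (n:ℚ) := Dv.of_zmod h4
  have := h1.add h6
  simpa using this

theorem Hs1_full (h2 : p ≠ 2) : Dv p 1 (Hs 1 (p-1)) := by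
  have hpos := hp.out.pos
  obtain ⟨n, h1, h4⟩ := Br_Hs (p := p) 1 (p-1) (by omega)
  have h5 : ∑ i ∈ range (p-1), ((((i+1:ℕ) : ZMod p))⁻¹)^1 = 0 := by
    have h := sum_inv p h2
    rw [sum_univ_eq] at h
    obtain ⟨q, hq⟩ : ∃ q, p = q + 1 := ⟨p-1, by omega⟩
    have e : p - 1 = q := by omega
    rw [show (range p) = range (q+1) by rw [← hq], sum_range_succ'] at h
    rw [e]
    simpa using h
  rw [h5] at h4
  have h6 : Dv p 1 (n:ℚ) := Dv.of_zmod h4
  have := h1.add h6
  simpa using this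

theorem prod_sub_prod {ι : Type*} {n : ℤ} (s : Finset ι) (f g : ι → ℚ)
    (hf : ∀ i ∈ s, Dv p 0 (f i)) (hg : ∀ i ∈ s, Dv p 0 (g i)) (h : ∀ i ∈ s, Dv p n (f i - g i)) :
    Dv p n (∏ i ∈ s, f i - ∏ i ∈ s, g i) ∧ Dv p 0 (∏ i ∈ s, f i) ∧ Dv p 0 (∏ i ∈ s, g i) := by
  classical
  induction s using Finset.induction_on with
  | empty => exact ⟨Or.inl (by simp), by simpa using Dv.one, by simpa using Dv.one⟩
  | insert a s ha ih =>
    obtain ⟨i1, i2, i3⟩ := ih (fun i hi => hf i (mem_insert_of_mem hi)) (fun i hi => hg i (mem_insert_of_mem hi)) (fun i hi => h i (mem_insert_of_mem hi))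
    rw [prod_insert ha, prod_insert ha]
    have e : f a * ∏ i ∈ s, f i - g a * ∏ i ∈ s, g i = (f a - g a) * ∏ i ∈ s, f i + g a * (∏ i ∈ s, f i - ∏ i ∈ s, g i) := by ring
    have h0 := mem_insert_self a s
    refine ⟨?_, ?_, ?_⟩
    · rw [e]
      exact (Dv.mul0 (h a h0) i2).add (Dv.mul0' (hg a h0) i1)
    · exact Dv.mul0 (hf a h0) i2
    · exact Dv.mul0 (hg a h0) i3

theorem unit_i {i : ℕ} (hi : i + 1 < p) : padicValRat p ((i:ℚ)+1) = 0 := unit_j hi

/-- `u_{p-1} ≡ 1 (mod p^3)` -/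
theorem u_three (h2 : p ≠ 2) (hy : p^2 ∣ y) : Dv p 3 (u p y (p-1) - 1) := by
  have hy1 : p ∣ y := (dvd_pow_self p (by norm_num)).trans hy
  have hpos := hp.out.pos
  have hge := hp.out.two_le
  -- compare with the product of `1 - (p+1) z = (w-p)/w`
  have s1 := prod_sub_prod (p := p) (n := 3) (range (p-1)) (fun i => (1 - z p y i)^(p+1)) (fun i => (w y i - p)/w y i)
    (by
      intro i hi
      rw [mem_range] at hi
      have := ((Dv.one (p := p)).sub ((z_dv hy1 (p := p) (i := i) (by omega)).mono (by norm_num : (0:ℤ) ≤ 1))).pow (p+1)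
      simpa using this)
    (by
      intro i hi
      rw [mem_range] at hi
      exact Dv.div_unit ((w_int i).sub (Dv.nat p)) (unit_w hy1 (by omega)))
    (by
      intro i hi
      rw [mem_range] at hi
      have h := L3 h2 (z_dv hy1 (p := p) (i := i) (by omega))
      have hw := (w_pos y i).ne'
      have e : (w y i - p)/w y i = 1 - ((p:ℚ)+1) * z p y i := by
        rw [div_eq_iff hw]
        linear_combination wz p y i
      refine dv_of_eq ?_ h
      simp only [e]
      ring)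
  have s2 := s1.1
  -- the product of (w-p)
  have ev : Even (p-1) := hp.out.even_sub_one h2
  have r1 : ∏ i ∈ range (p-1), (w y i - p) = ∏ i ∈ range (p-1), (((i:ℚ)+1) - y) := by
    rw [← prod_range_reflect]
    have h : ∀ i ∈ range (p-1), (w y (p-1-1-i) - p) = (-1) * (((i:ℚ)+1) - y) := by
      intro i hi
      rw [mem_range] at hi
      have c : ((p-1-1-i : ℕ):ℚ) = (p:ℚ) - 2 - i := by
        rw [Nat.cast_sub (by omega), Nat.cast_sub (by omega), Nat.cast_sub (by omega)]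
        push_cast
        ring
      unfold w
      rw [c]
      ring
    rw [prod_congr rfl h, prod_mul_distrib, prod_const, card_range, ev.neg_one_pow, one_mul]
  have yd := dv_y hy
  -- expansion
  have gen : ∀ s : ℚ, Dv p 2 s → Dv p 4 (∏ i ∈ range (p-1), (1 + s / ((i:ℚ)+1)) - 1 - s * Hs 1 (p-1)) := by
    intro s hs
    have := Dv.prod2 (p := p) (n := 2) (by norm_num) (range (p-1)) (fun i => s / ((i:ℚ)+1)) (by
      intro i hi
      rw [mem_range] at hi
      exact Dv.div_unit hs (unit_i (by omega)))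
    refine dv_of_eq ?_ (this.mono (by norm_num : (4:ℤ) ≤ 2*2))
    congr 1
    unfold Hs
    rw [mul_sum]
    refine sum_congr rfl fun i _ => ?_
    rw [pow_one, mul_one_div]
  have g1 := gen y yd
  have g2 := gen (-y) yd.neg
  have H1 := Hs1_full (p := p) h2
  have g3 : Dv p 3 (∏ i ∈ range (p-1), (1 + (-(y:ℚ)) / ((i:ℚ)+1)) - ∏ i ∈ range (p-1), (1 + (y:ℚ) / ((i:ℚ)+1))) := by
    have t1 : Dv p 3 ((y:ℚ) * Hs 1 (p-1)) := yd.mul H1
    have := ((g2.sub g1).mono (by norm_num : (3:ℤ) ≤ 4)).sub (t1.add t1)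
    refine dv_of_eq ?_ this
    ring
  -- put together: ∏ (w-p)/w - 1
  have f1 : ∏ i ∈ range (p-1), (((i:ℚ)+1) - y) = (∏ i ∈ range (p-1), ((i:ℚ)+1)) * ∏ i ∈ range (p-1), (1 + (-(y:ℚ)) / ((i:ℚ)+1)) := by
    rw [← prod_mul_distrib]
    refine prod_congr rfl fun i _ => ?_
    have : ((i:ℚ)+1) ≠ 0 := by positivity
    field_simp
    ring
  have f2 : ∏ i ∈ range (p-1), w y i = (∏ i ∈ range (p-1), ((i:ℚ)+1)) * ∏ i ∈ range (p-1), (1 + (y:ℚ) / ((i:ℚ)+1)) := by
    rw [← prod_mul_distrib]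
    refine prod_congr rfl fun i _ => ?_
    have : ((i:ℚ)+1) ≠ 0 := by positivity
    unfold w
    field_simp
    ring
  have hP : Dv p 0 (∏ i ∈ range (p-1), ((i:ℚ)+1)) := by
    have := (prod_sub_prod (p := p) (n := 0) (range (p-1)) (fun i => ((i:ℚ)+1)) (fun i => ((i:ℚ)+1))
      (by intro i _; have := Dv.nat (p := p) (i+1); push_cast at this; exact this)
      (by intro i _; have := Dv.nat (p := p) (i+1); push_cast at this; exact this)
      (by intro i _; rw [sub_self]; exact Dv.zero _)).2.1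
    exact this
  have hW : padicValRat p (∏ i ∈ range (p-1), w y i) = 0 ∧ (∏ i ∈ range (p-1), w y i) ≠ 0 := by
    have : ∀ n, n < p → padicValRat p (∏ i ∈ range n, w y i) = 0 ∧ (∏ i ∈ range n, w y i) ≠ 0 := by
      intro n
      induction n with
      | zero => intro _; simp
      | succ n ih =>
        intro hn
        obtain ⟨a, b⟩ := ih (by omega)
        rw [prod_range_succ]
        refine ⟨?_, mul_ne_zero b (w_pos y n).ne'⟩
        rw [padicValRat.mul b (w_pos y n).ne', a, unit_w hy1 hn, add_zero]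
    exact this (p-1) (by omega)
  have s3 : Dv p 3 (∏ i ∈ range (p-1), ((w y i - p)/w y i) - 1) := by
    rw [prod_div_distrib, r1]
    have e : (∏ i ∈ range (p-1), (((i:ℚ)+1) - y)) / (∏ i ∈ range (p-1), w y i) - 1 =
      ((∏ i ∈ range (p-1), (((i:ℚ)+1) - y)) - (∏ i ∈ range (p-1), w y i)) / (∏ i ∈ range (p-1), w y i) := by
      have := hW.2
      field_simp
    rw [e]
    refine Dv.div_unit ?_ hW.1
    rw [f1, f2, ← mul_sub]
    exact Dv.mul0' hP g3
  have := s2.add s3
  unfold u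
  refine dv_of_eq ?_ this
  ring

end
end Pool.Agent.N926.Qg
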