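import Pool.Agent.N926.Qg.C

set_option autoImplicit false
set_option linter.unusedSectionVars false
set_option linter.unusedVariables false

namespace Pool.Agent.N926.Qg

open Finset Pool.Agent.N926.Sup Pool.Agent.N926.Sup2

section
variable {p : ℕ} [hp : Fact p.Prime] {y : ℕ}

theorem unit24 (h2 : p ≠ 2) (h3 : p ≠ 3) : padicValRat p (24:ℚ) = 0 := by
  have h : ¬ (p:ℤ) ∣ (24:ℤ) := by
    intro h
    have h1 : p ∣ 24 := by exact_mod_cast h
    rw [show 24 = 2^3*3 by norm_num] at h1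
    rcases hp.out.dvd_mul.1 h1 with h | h
    · exact h2 ((Nat.prime_dvd_prime_iff_eq hp.out Nat.prime_two).1 (hp.out.dvd_of_dvd_pow h))
    · exact h3 ((Nat.prime_dvd_prime_iff_eq hp.out Nat.prime_three).1 h)
  have := unit_int (p := p) h
  rw [Int.cast_ofNat] at this
  exact this

theorem E5 (h2 : p ≠ 2) (hy : p ∣ y) {i : ℕ} (hi : i + 1 < p) :
    Dv p 5 (24 * E p y i - 12*p^2*(u p y i * z p y i) - 4*p^2*(z p y i)^2) := by
  have hge := hp.out.two_le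
  have hz := z_dv hy hi
  have hR := pow_exp hz (p+1)
  set R := (1-z p y i)^(p+1) - (1 - ((p+1:ℕ):ℚ)*z p y i + (((p+1).choose 2:ℕ):ℚ)*(z p y i)^2 - (((p+1).choose 3:ℕ):ℚ)*(z p y i)^3 + (((p+1).choose 4:ℕ):ℚ)*(z p y i)^4) with hRd
  have c2 := C2 p
  have c3 := C3 (p := p) (by omega)
  have c4 := C4 (p := p) hge
  have hw := wz p y i
  have hu := u_int hy (n := i) (by omega)
  have hu1 := u_one hy i (by omega)
  have e : 24 * E p y i - 12*p^2*(u p y i * z p y i) - 4*p^2*(z p y i)^2 =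
      (-4 : ℤ) * ((p:ℚ)^2 * (z p y i)^2 * (p * u p y i - (u p y i - 1)))
      + u p y i * ((((p:ℤ)-1)*((p:ℤ)-2) : ℤ) * ((p:ℚ)^2 * (z p y i)^3)) + (24:ℤ) * (u p y i * (w y i * R)) := by
    rw [E_eq]
    have e1 : (1 - z p y i)^(p+1) = R + (1 - ((p+1:ℕ):ℚ)*z p y i + (((p+1).choose 2:ℕ):ℚ)*(z p y i)^2 - (((p+1).choose 3:ℕ):ℚ)*(z p y i)^3 + (((p+1).choose 4:ℕ):ℚ)*(z p y i)^4) := by
      rw [hRd]; ring
    rw [e1]
    have k2 : (((p+1).choose 2 : ℕ):ℚ) = ((p:ℚ)+1)*p/2 := by linarith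
    have k3 : (((p+1).choose 3 : ℕ):ℚ) = ((p:ℚ)+1)*p/2*((p:ℚ)-1)/3 := by rw [k2] at c3; linarith
    have k4 : (((p+1).choose 4 : ℕ):ℚ) = ((p:ℚ)+1)*p/2*((p:ℚ)-1)/3*((p:ℚ)-2)/4 := by rw [k3] at c4; linarith
    rw [k2, k3, k4]
    push_cast
    linear_combination (u p y i) * (12*p*z p y i - 4*p*(p-1)*(z p y i)^2 + p*(p-1)*(p-2)*(z p y i)^3) * hw
  rw [e]
  have hp2 : Dv p 2 ((p:ℚ)^2) := by simpa using Dv.p_pow (p := p) 2
  have z2 : Dv p 2 ((z p y i)^2) := (hz.pow 2).mono (by norm_num)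
  have z3 : Dv p 3 ((z p y i)^3) := (hz.pow 3).mono (by norm_num)
  refine (Dv.add ?_ ?_).add ?_
  · refine Dv.int_mul _ ?_
    exact ((hp2.mul z2).mul ((Dv.mul0 Dv.p1 hu).sub hu1)).mono (by norm_num)
  · refine Dv.mul0' hu (Dv.int_mul _ ?_)
    exact (hp2.mul z3).mono (by norm_num)
  · exact Dv.int_mul _ (Dv.mul0' hu (Dv.mul0' (w_int i) hR))

theorem sum_uz (h2 : p ≠ 2) (hy : p^2 ∣ y) : Dv p 3 (∑ i ∈ range (p-1), u p y i * z p y i) := by
  have hy1 : p ∣ y := (dvd_pow_self p (by norm_num)).trans hy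
  have hpos := hp.out.pos
  have hne : ((p:ℚ)+1) ≠ 0 := by positivity
  refine Dv.of_unit_mul unit_p1 hne ?_
  have h1 : ((p:ℚ)+1) * ∑ i ∈ range (p-1), u p y i * z p y i =
      ∑ i ∈ range (p-1), u p y i * ((1 - z p y i)^(p+1) - 1 + ((p:ℚ)+1) * z p y i) - (u p y (p-1) - 1) := by
    have h := Finset.sum_range_sub (u p y) (p-1)
    rw [u_zero] at h
    rw [← h, ← sum_sub_distrib, mul_sum]
    refine sum_congr rfl fun i _ => ?_
    rw [u_succ]
    ring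
  rw [h1]
  refine (Dv.sum _ _ fun i hi => ?_).sub (u_three h2 hy)
  rw [mem_range] at hi
  exact Dv.mul0' (u_int hy1 (by omega)) (L3 h2 (z_dv hy1 (by omega)))

theorem sum_zz (h2 : p ≠ 2) (h3 : p ≠ 3) (hy : p^2 ∣ y) : Dv p 3 (∑ i ∈ range (p-1), (z p y i)^2) := by
  have hy1 : p ∣ y := (dvd_pow_self p (by norm_num)).trans hy
  have hpos := hp.out.pos
  have hne : ((p:ℚ)+1) ≠ 0 := by positivity
  refine Dv.of_unit_mul (y := ((p:ℚ)+1)^2) ?_ (by positivity) ?_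
  · rw [padicValRat.pow, unit_p1, mul_zero]
  have h1 : ((p:ℚ)+1)^2 * ∑ i ∈ range (p-1), (z p y i)^2 = (p:ℚ)^2 * ∑ i ∈ range (p-1), 1/(w y i)^2 := by
    rw [mul_sum, mul_sum]
    refine sum_congr rfl fun i _ => ?_
    have hw := (w_pos y i).ne'
    unfold z
    field_simp
  rw [h1]
  have hp2 : Dv p 2 ((p:ℚ)^2) := by simpa using Dv.p_pow (p := p) 2
  refine (hp2.mul (n := 1) ?_).mono (by norm_num)
  have h4 : Dv p 1 (∑ i ∈ range (p-1), 1/(w y i)^2 - Hs 2 (p-1)) := by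
    unfold Hs
    rw [← sum_sub_distrib]
    refine Dv.sum _ _ fun i hi => ?_
    rw [mem_range] at hi
    have hw := (w_pos y i).ne'
    have hi0 : ((i:ℚ)+1) ≠ 0 := by positivity
    have e : 1/(w y i)^2 - 1/((i:ℚ)+1)^2 = -(y * (w y i + ((i+1:ℕ):ℚ))) / ((w y i)^2 * ((i:ℚ)+1)^2) := by
      push_cast
      have hd : w y i = y + i + 1 := rfl
      field_simp
      rw [hd]
      ring
    rw [e]
    refine Dv.div_unit ?_ ?_
    · exact (Dv.mul0 ((dv_y hy).mono (by norm_num)) ((w_int i).add (Dv.nat _))).neg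
    · rw [padicValRat.mul (pow_ne_zero _ hw) (pow_ne_zero _ hi0), padicValRat.pow, padicValRat.pow, unit_w hy1 (by omega), unit_i (by omega)]
      simp
  exact dv_of_eq (by ring) (h4.add (Hs2_full h2 h3))

/-- block sums at level `p^5` -/
theorem block5 (h2 : p ≠ 2) (h3 : p ≠ 3) (hy : p^2 ∣ y) : Dv p 5 (∑ i ∈ range p, u p y i) := by
  have hy1 : p ∣ y := (dvd_pow_self p (by norm_num)).trans hy
  refine Dv.of_unit_mul unit_p_sub p_sub_ne ?_
  rw [block_eq]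
  have hpos := hp.out.pos
  have hp2 : Dv p 2 ((p:ℚ)^2) := by simpa using Dv.p_pow (p := p) 2
  refine Dv.sub ?_ ?_
  · refine Dv.of_unit_mul (unit24 h2 h3) (by norm_num) ?_
    have s1 : Dv p 5 (∑ i ∈ range (p-1), (24 * E p y i - 12*p^2*(u p y i * z p y i) - 4*p^2*(z p y i)^2)) := by
      refine Dv.sum _ _ fun i hi => ?_
      rw [mem_range] at hi
      exact E5 h2 hy1 (by omega)
    have s2 : Dv p 5 ((12:ℤ) * ((p:ℚ)^2 * ∑ i ∈ range (p-1), u p y i * z p y i)) :=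
      Dv.int_mul _ ((hp2.mul (sum_uz h2 hy)).mono (by norm_num))
    have s3 : Dv p 5 ((4:ℤ) * ((p:ℚ)^2 * ∑ i ∈ range (p-1), (z p y i)^2)) :=
      Dv.int_mul _ ((hp2.mul (sum_zz h2 h3 hy)).mono (by norm_num))
    refine dv_of_eq ?_ ((s1.add s2).add s3)
    rw [sum_sub_distrib, sum_sub_distrib, ← mul_sum, ← mul_sum, ← mul_sum]
    push_cast
    ring
  · have := (dv_y hy).mul (u_three h2 hy)
    exact this.mono (by norm_num)

end
end Pool.Agent.N926.Qg
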