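import Pool.Agent.N926.Qg.D

set_option autoImplicit false
set_option linter.unusedSectionVars false
set_option linter.unusedVariables false

namespace Pool.Agent.N926.Qg

open Finset Pool.Agent.N926.Sup Pool.Agent.N926.Sup2 Pool.Agent.N926.Qf

/-- the terms `binom(-1/(p+1),k)^(p+1)` -/
def fb (p k : ℕ) : ℚ := gb (-1/((p:ℚ)+1)) k ^ (p+1)

/-- `(p^(2r)-1)/(p+1)` -/
theorem exists_z {p : ℕ} (hp : 1 ≤ p) (r : ℕ) : ∃ z : ℕ, (p+1)*z + 1 = p^(2*r) := by
  induction r with
  | zero => exact ⟨0, by simp⟩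
  | succ r ih =>
    obtain ⟨z, hz⟩ := ih
    obtain ⟨q, hq⟩ : ∃ q, p = q + 1 := ⟨p-1, by omega⟩
    refine ⟨p^2*z + q, ?_⟩
    have : p^(2*(r+1)) = p^2 * p^(2*r) := by rw [← pow_add]; congr 1; ring
    rw [this, ← hz]
    subst hq
    ring

section
variable {p : ℕ} [hp : Fact p.Prime]

theorem dv_div {m v : ℤ} {a c : ℚ} (ha : Dv p m a) (hc : c ≠ 0) (hv : padicValRat p c = v) : Dv p (m - v) (a / c) := by
  rcases ha with h | h
  · left; rw [h, zero_div]
  by_cases h0 : a = 0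
  · left; rw [h0, zero_div]
  right
  rw [padicValRat.div h0 hc, hv]
  omega

theorem x_int : Dv p 0 (-1/((p:ℚ)+1)) := Dv.div_unit (by simpa using (Dv.one (p := p)).neg) unit_p1

theorem gb_mul_fact (a : ℚ) (k : ℕ) : gb a k = (∏ j ∈ range k, (a - j)) / (k.factorial : ℚ) := by
  unfold gb
  rw [prod_div_distrib]
  congr 1
  rw [← Finset.prod_range_add_one_eq_factorial]
  push_cast
  rfl

/-- approximation by binomial coefficients of natural numbers -/
theorem approx (k e : ℕ) : ∃ r z : ℕ, 1 ≤ r ∧ (p+1)*z + 1 = p^(2*r) ∧ Dv p e (gb (-1/((p:ℚ)+1)) k - ((z.choose k : ℕ):ℚ)) := by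
  set v := padicValNat p k.factorial with hv
  obtain ⟨z, hz⟩ := exists_z hp.out.one_le (v + e + 1)
  refine ⟨v+e+1, z, by omega, hz, ?_⟩
  have hzq : ((p:ℚ)+1)*z + 1 = p^(2*(v+e+1)) := by exact_mod_cast hz
  have h1 : ((p:ℚ)+1) ≠ 0 := by positivity
  have hd : -1/((p:ℚ)+1) - z = -((p:ℚ)^(2*(v+e+1))) / ((p:ℚ)+1) := by
    rw [← hzq]
    field_simp
    ring
  have h2 : Dv p ((2*(v+e+1) : ℕ):ℤ) (-1/((p:ℚ)+1) - z) := by
    rw [hd]
    exact Dv.div_unit (Dv.p_pow _).neg unit_p1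
  have h3 := (prod_sub_prod (p := p) (n := ((2*(v+e+1) : ℕ):ℤ)) (range k) (fun j => -1/((p:ℚ)+1) - (j:ℚ)) (fun j => (z:ℚ) - (j:ℚ))
    (fun i _ => x_int.sub (Dv.nat i)) (fun i _ => (Dv.nat z).sub (Dv.nat i))
    (fun i _ => dv_of_eq (by ring) h2)).1
  rw [← gb_nat, gb_mul_fact, gb_mul_fact, ← sub_div]
  have hf : (k.factorial : ℚ) ≠ 0 := by exact_mod_cast k.factorial_ne_zero
  have := dv_div (v := v) h3 hf (by rw [padicValRat.of_nat])
  refine this.mono ?_
  push_cast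
  omega

theorem gb_int (k : ℕ) : Dv p 0 (gb (-1/((p:ℚ)+1)) k) := by
  obtain ⟨r, z, _, _, h⟩ := approx (p := p) k 0
  exact dv_of_eq (by ring) ((show Dv p 0 _ from h).add (Dv.nat (z.choose k)))

theorem fb_int (k : ℕ) : Dv p 0 (fb p k) := by
  have := (gb_int (p := p) k).pow (p+1)
  unfold fb
  simpa using this

/-- `p ∣ binom(x, p a)` for `p ∤ a` -/
theorem gb_dv {a : ℕ} (ha : ¬ p ∣ a) : Dv p 1 (gb (-1/((p:ℚ)+1)) (p*a)) := by
  obtain ⟨r, z, hr, hz, h⟩ := approx (p := p) (p*a) 1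
  have hpos := hp.out.pos
  have ha0 : a ≠ 0 := by rintro rfl; exact ha (dvd_zero _)
  -- `z = p^2 s + (p-1)`
  have hd : p^2 ∣ (p+1)*z + 1 := by rw [hz]; exact pow_dvd_pow _ (by omega)
  have hzm : p^2 ∣ z + 1 - p := by
    have hzp : p ≤ z + 1 := by
      by_contra hlt
      have h5 : (p+1)*z + 1 < p^2 := by
        have : z + 2 ≤ p := by omega
        nlinarith
      have := Nat.le_of_dvd (by omega) hd
      omega
    obtain ⟨c, hc⟩ : ∃ c, z + 1 = p + c := ⟨z+1-p, by omega⟩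
    have h6 : (p+1)*z + 1 = p^2 + (p+1)*c := by
      have : (p+1)*(z+1) = (p+1)*(p+c) := by rw [hc]
      nlinarith
    rw [h6] at hd
    have h7 : p^2 ∣ (p+1)*c := (Nat.dvd_add_right (dvd_refl _)).1 hd
    have hcop : Nat.Coprime (p^2) (p+1) := by
      apply Nat.Coprime.pow_left
      simp
    have h8 : p^2 ∣ c := hcop.dvd_of_dvd_mul_left h7
    have : z + 1 - p = c := by omega
    rw [this]; exact h8
  obtain ⟨s, hs⟩ := hzm
  have hzp : p ≤ z + 1 := by
    by_contra hlt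
    have h5 : (p+1)*z + 1 < p^2 := by
      have : z + 2 ≤ p := by omega
      nlinarith
    have := Nat.le_of_dvd (by omega) hd
    omega
  have hzs : z = (p-1) + p*(p*s) := by
    have : z + 1 = p + p^2*s := by omega
    have h9 : p^2*s = p*(p*s) := by ring
    omega
  have hdiv : z / p = p*s := by
    rw [hzs, Nat.add_mul_div_left _ _ hpos, Nat.div_eq_of_lt (by omega), zero_add]
  have hl := Choose.choose_modEq_choose_mod_mul_choose_div_nat (p := p) (n := z) (k := p*a)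
  rw [Nat.mul_div_cancel_left _ hpos, Nat.mul_mod_right, Nat.choose_zero_right, one_mul, hdiv] at hl
  have h10 : p ∣ (p*s).choose a := by
    obtain ⟨b, rfl⟩ : ∃ b, a = b + 1 := ⟨a-1, by omega⟩
    rcases Nat.eq_zero_or_pos (p*s) with h0 | h0
    · rw [h0, Nat.choose_zero_succ]; exact dvd_zero _
    obtain ⟨m, hm⟩ : ∃ m, p*s = m+1 := ⟨p*s-1, by omega⟩
    have h11 := Nat.add_one_mul_choose_eq m b
    have h12 : p ∣ (m+1).choose (b+1) * (b+1) := by
      rw [← h11, ← hm]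
      exact Dvd.dvd.mul_right (dvd_mul_right _ _) _
    rw [hm]
    exact (hp.out.dvd_mul.1 h12).resolve_right ha
  have h13 : p ∣ z.choose (p*a) := (Nat.modEq_zero_iff_dvd.1 (hl.trans (Nat.modEq_zero_iff_dvd.2 h10)))
  have h14 : Dv p 1 ((z.choose (p*a) : ℕ):ℚ) := by
    have : ((p:ℤ)^1) ∣ ((z.choose (p*a) : ℕ):ℤ) := by rw [pow_one]; exact_mod_cast h13
    have := Dv.of_dvd (p := p) this
    simpa using this
  exact dv_of_eq (by ring) ((show Dv p 1 _ from h).add h14)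

theorem fb_dv {a : ℕ} (ha : ¬ p ∣ a) : Dv p ((p:ℤ)+1) (fb p (p*a)) := by
  have := (gb_dv (p := p) ha).pow (p+1)
  unfold fb
  refine this.mono ?_
  push_cast
  omega

/-- the terms of a block -/
theorem fb_block (h2 : p ≠ 2) (y i : ℕ) : fb p (y+i) = fb p y * u p y i := by
  have ev : Even (p+1) := by
    have := hp.out.even_sub_one h2
    have h := hp.out.pos
    rw [Nat.even_iff] at this ⊢
    omega
  induction i with
  | zero => rw [u_zero, mul_one, add_zero]
  | succ i ih =>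
    have e : fb p (y+(i+1)) = fb p (y+i) * (1 - z p y i)^(p+1) := by
      unfold fb
      rw [← add_assoc, gb_succ, mul_pow]
      congr 1
      have e1 : ((-1/((p:ℚ)+1) - ((y+i : ℕ):ℚ))/(((y+i:ℕ):ℚ)+1)) = -(1 - z p y i) := by
        have h1 : ((p:ℚ)+1) ≠ 0 := by positivity
        have h2 : (y:ℚ)+i+1 ≠ 0 := by positivity
        unfold z w
        push_cast
        field_simp
        ring
      rw [e1, ev.neg_pow]
    rw [e, ih, u_succ]
    ring

theorem sum_blocks (m : ℕ) : ∑ k ∈ range (p*m), fb p k = ∑ a ∈ range m, ∑ i ∈ range p, fb p (p*a+i) := by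
  induction m with
  | zero => simp
  | succ m ih =>
    rw [mul_add, mul_one, sum_range_add, ih, sum_range_succ]

theorem first_level {c : ℕ} (h2 : p ≠ 2) (hc : c ≤ p+1)
    (hb : ∀ y : ℕ, p^2 ∣ y → Dv p c (∑ i ∈ range p, u p y i)) (m : ℕ) :
    Dv p c (∑ k ∈ range (p*m), fb p k) := by
  rw [sum_blocks]
  refine Dv.sum _ _ fun a _ => ?_
  rw [sum_congr rfl fun i _ => fb_block h2 (p*a) i, ← mul_sum]
  by_cases ha : p ∣ a
  · exact Dv.mul0' (fb_int _) (hb _ (by rw [pow_two]; exact mul_dvd_mul_left p ha))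
  · refine Dv.mul0 ((fb_dv ha).mono (by exact_mod_cast hc)) ?_
    refine Dv.sum _ _ fun i hi => ?_
    rw [mem_range] at hi
    exact u_int (dvd_mul_right p a) hi

theorem level_five (h2 : p ≠ 2) (h3 : p ≠ 3) (m : ℕ) : Dv p 5 (∑ k ∈ range (p*m), fb p k) := by
  have hge : 5 ≤ p + 1 := by
    have h := hp.out.two_le
    have : p ≠ 4 := by rintro rfl; exact absurd hp.out (by norm_num)
    omega
  exact first_level (c := 5) h2 hge (fun y hy => block5 h2 h3 hy) m

theorem level_three (h2 : p ≠ 2) (m : ℕ) : Dv p 3 (∑ k ∈ range (p*m), fb p k) := by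
  have hge : 3 ≤ p + 1 := by
    have h := hp.out.two_le
    omega
  exact first_level (c := 3) h2 hge (fun y hy => block3 h2 hy) m

end
end Pool.Agent.N926.Qg
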