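import Pool.Agent.N926.Qg.E

set_option autoImplicit false
set_option linter.unusedSectionVars false
set_option linter.unusedVariables false

/-! ## The prime 2 -/

namespace Pool.Agent.N926.Qg

open Finset Pool.Agent.N926.Sup Pool.Agent.N926.Sup2 Pool.Agent.N926.Qf

/-- 2-adic valuation of a natural number, as an integer -/
def v2 (n : ℕ) : ℤ := (padicValNat 2 n : ℤ)

theorem v2_mul {a b : ℕ} (ha : a ≠ 0) (hb : b ≠ 0) : v2 (a*b) = v2 a + v2 b := by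
  unfold v2
  rw [padicValNat.mul ha hb]
  push_cast
  ring

theorem v2_nonneg (n : ℕ) : 0 ≤ v2 n := by unfold v2; positivity

theorem dv_nat2 (n : ℕ) : Dv 2 (v2 n) (n:ℚ) := by
  right
  rw [padicValRat.of_nat]
  exact le_refl _

/-- integral and `φ(x+n) ≡ φ(x) (mod 2^m n)` -/
def Lip (m : ℤ) (φ : ℕ → ℚ) : Prop :=
  (∀ x, Dv 2 0 (φ x)) ∧ ∀ x n : ℕ, n ≠ 0 → Dv 2 (m + v2 n) (φ (x+n) - φ x)

theorem Lip.mono {m m' : ℤ} (h : m' ≤ m) {φ : ℕ → ℚ} (hφ : Lip m φ) : Lip m' φ :=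
  ⟨hφ.1, fun x n hn => (hφ.2 x n hn).mono (by omega)⟩

theorem Lip.mul {m : ℤ} {f g : ℕ → ℚ} (hf : Lip m f) (hg : Lip m g) : Lip m (fun x => f x * g x) := by
  refine ⟨fun x => Dv.mul0 (hf.1 x) (hg.1 x), fun x n hn => ?_⟩
  have e : f (x+n) * g (x+n) - f x * g x = (f (x+n) - f x) * g (x+n) + f x * (g (x+n) - g x) := by ring
  simp only
  rw [e]
  exact (Dv.mul0 (hf.2 x n hn) (hg.1 _)).add (Dv.mul0' (hf.1 _) (hg.2 x n hn))

theorem Lip.add {m : ℤ} {f g : ℕ → ℚ} (hf : Lip m f) (hg : Lip m g) : Lip m (fun x => f x + g x) := by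
  refine ⟨fun x => (hf.1 x).add (hg.1 x), fun x n hn => ?_⟩
  have e : f (x+n) + g (x+n) - (f x + g x) = (f (x+n) - f x) + (g (x+n) - g x) := by ring
  simp only
  rw [e]
  exact (hf.2 x n hn).add (hg.2 x n hn)

theorem Lip.neg {m : ℤ} {f : ℕ → ℚ} (hf : Lip m f) : Lip m (fun x => - f x) := by
  refine ⟨fun x => (hf.1 x).neg, fun x n hn => ?_⟩
  have e : -f (x+n) - -f x = -(f (x+n) - f x) := by ring
  simp only
  rw [e]
  exact (hf.2 x n hn).neg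

theorem Lip.const_mul {m e : ℤ} {c : ℚ} (he : 0 ≤ e) (hc : Dv 2 e c) {f : ℕ → ℚ} (hf : Lip m f) : Lip (e+m) (fun x => c * f x) := by
  refine ⟨fun x => Dv.mul0' (hc.mono he) (hf.1 x), fun x n hn => ?_⟩
  have e : c * f (x+n) - c * f x = c * (f (x+n) - f x) := by ring
  simp only
  rw [e]
  exact (hc.mul (hf.2 x n hn)).mono (by omega)

theorem Lip.pow {m : ℤ} {f : ℕ → ℚ} (hf : Lip m f) : ∀ k : ℕ, Lip m (fun x => f x ^ (k+1)) := by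
  intro k
  induction k with
  | zero => simpa using hf
  | succ k ih => simpa only [pow_succ] using ih.mul hf

theorem odd_unit2 {c : ℤ} (h : c % 2 = 1) : padicValRat 2 (c:ℚ) = 0 ∧ (c:ℚ) ≠ 0 := by
  constructor
  · apply unit_int (p := 2)
    intro hd
    have : (2:ℤ) ∣ c := by exact_mod_cast hd
    omega
  · have : c ≠ 0 := by rintro rfl; simp at h
    exact_mod_cast this

theorem lip_frac (a b c d : ℤ) (m : ℕ) (hc : c % 2 = 1) (hd : d % 2 = 0) (h : (2:ℤ)^m ∣ b*c - a*d) :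
    Lip m (fun x : ℕ => ((a:ℚ) + b*x)/((c:ℚ) + d*x)) := by
  have hu : ∀ x : ℕ, padicValRat 2 ((c:ℚ) + d*x) = 0 ∧ ((c:ℚ) + d*x) ≠ 0 := by
    intro x
    have : (c + d*(x:ℤ)) % 2 = 1 := by
      obtain ⟨e, he⟩ : (2:ℤ) ∣ d := Int.dvd_of_emod_eq_zero hd
      rw [he, mul_assoc]
      omega
    have := odd_unit2 this
    push_cast at this
    exact this
  constructor
  · intro x
    refine Dv.div_unit ?_ (hu x).1
    have := Dv.int (p := 2) (a + b*x)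
    push_cast at this
    exact this
  · intro x n hn
    have e : ((a:ℚ) + b*((x+n:ℕ):ℚ))/((c:ℚ) + d*((x+n:ℕ):ℚ)) - ((a:ℚ) + b*x)/((c:ℚ) + d*x) =
      (((b*c - a*d : ℤ):ℚ) * (n:ℚ)) / (((c:ℚ) + d*((x+n:ℕ):ℚ)) * ((c:ℚ) + d*x)) := by
      have h1 := (hu x).2
      have h2 := (hu (x+n)).2
      rw [div_sub_div _ _ h2 h1]
      congr 1
      push_cast
      ring
    simp only
    rw [e]
    refine Dv.div_unit ?_ ?_
    · exact (Dv.of_dvd (p := 2) (n := m) (by exact_mod_cast h)).mul (dv_nat2 n)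
    · rw [padicValRat.mul (hu (x+n)).2 (hu x).2, (hu x).1, (hu (x+n)).1, add_zero]

/-- the ratio of consecutive terms -/
def rho (k : ℕ) : ℚ := -((1 + 3*(k:ℚ))/(3*((k:ℚ)+1)))^3

theorem fb_rho (k : ℕ) : fb 2 (k+1) = fb 2 k * rho k := by
  unfold fb rho
  rw [gb_succ, mul_pow]
  congr 1
  have : ((k:ℚ)+1) ≠ 0 := by positivity
  have e : (-1/(((2:ℕ):ℚ)+1) - (k:ℚ))/((k:ℚ)+1) = -((1 + 3*(k:ℚ))/(3*((k:ℚ)+1))) := by
    push_cast
    field_simp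
    ring
  rw [e]
  norm_num
  ring

def g1 (x : ℕ) : ℚ := (((1:ℤ):ℚ) + ((12:ℤ):ℚ)*x)/(((3:ℤ):ℚ) + ((12:ℤ):ℚ)*x)
def g2 (x : ℕ) : ℚ := (((7:ℤ):ℚ) + ((12:ℤ):ℚ)*x)/(((9:ℤ):ℚ) + ((12:ℤ):ℚ)*x)
def g3 (x : ℕ) : ℚ := (((5:ℤ):ℚ) + ((6:ℤ):ℚ)*x)/(((3:ℤ):ℚ) + ((6:ℤ):ℚ)*x)
def g4 (x : ℕ) : ℚ := (((1:ℤ):ℚ) + ((3:ℤ):ℚ)*x)/(((3:ℤ):ℚ) + ((6:ℤ):ℚ)*x)

theorem lip1 : Lip 3 g1 := lip_frac 1 12 3 12 3 (by norm_num) (by norm_num) (by norm_num)
theorem lip2 : Lip 3 g2 := lip_frac 7 12 9 12 3 (by norm_num) (by norm_num) (by norm_num)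
theorem lip3 : Lip 2 g3 := lip_frac 5 6 3 6 2 (by norm_num) (by norm_num) (by norm_num)
theorem lip4 : Lip 0 g4 := lip_frac 1 3 3 6 0 (by norm_num) (by norm_num) (by norm_num)

theorem rho0 (x : ℕ) : rho (4*x) = -(g1 x)^3 := by
  unfold rho g1
  congr 2
  push_cast
  rw [div_eq_div_iff (by positivity) (by positivity)]
  ring

theorem rho1 (x : ℕ) : rho (4*x+1) = -(8 * (g4 x)^3) := by
  unfold rho g4
  have e : ((1 + 3*((4*x+1:ℕ):ℚ))/(3*(((4*x+1:ℕ):ℚ)+1))) = 2 * ((((1:ℤ):ℚ) + ((3:ℤ):ℚ)*x)/(((3:ℤ):ℚ) + ((6:ℤ):ℚ)*x)) := by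
    push_cast
    rw [← mul_div_assoc, div_eq_div_iff (by positivity) (by positivity)]
    ring
  rw [e, mul_pow]
  norm_num

theorem rho2 (x : ℕ) : rho (4*x+2) = -(g2 x)^3 := by
  unfold rho g2
  congr 2
  push_cast
  rw [div_eq_div_iff (by positivity) (by positivity)]
  ring

/-- `w0(x+1)/w0(x)` -/
def G (x : ℕ) : ℚ := -(g1 x * g2 x * g3 x)^3

theorem G_rho (x : ℕ) : G x * rho x = rho (4*x) * rho (4*x+1) * rho (4*x+2) * rho (4*x+3) := by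
  rw [rho0, rho1, rho2]
  have h3 : rho (4*x+3) = -((((5:ℤ):ℚ) + ((6:ℤ):ℚ)*x)/(6*((x:ℚ)+1)))^3 := by
    unfold rho
    congr 2
    push_cast
    rw [div_eq_div_iff (by positivity) (by positivity)]
    ring
  rw [h3]
  unfold G rho
  have key : g3 x * ((1 + 3*(x:ℚ))/(3*((x:ℚ)+1))) = 2 * g4 x * ((((5:ℤ):ℚ) + ((6:ℤ):ℚ)*x)/(6*((x:ℚ)+1))) := by
    unfold g3 g4
    push_cast
    have h1 : (3 + 6*(x:ℚ)) ≠ 0 := by positivity
    have h2 : ((x:ℚ)+1) ≠ 0 := by positivity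
    field_simp
    ring
  have k3 := congrArg (· ^ 3) key
  simp only [mul_pow] at k3
  rw [mul_pow, mul_pow]
  linear_combination (g1 x)^3 * (g2 x)^3 * k3

def w0 (x : ℕ) : ℚ := ∏ s ∈ range x, G s

theorem fb_w0 (x : ℕ) : fb 2 (4*x) = fb 2 x * w0 x := by
  induction x with
  | zero => simp [w0]
  | succ x ih =>
    rw [show 4*(x+1) = (((4*x+1)+1)+1)+1 by ring, fb_rho, fb_rho, fb_rho, fb_rho, fb_rho, ih]
    unfold w0
    rw [prod_range_succ]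
    have h := G_rho x
    have e1 : 4*x+1+1 = 4*x+2 := rfl
    have e2 : 4*x+1+1+1 = 4*x+3 := rfl
    rw [e2, e1]
    linear_combination (-(fb 2 x * ∏ s ∈ range x, G s)) * h

end Pool.Agent.N926.Qg
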