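import Pool.Agent.N926.Qg.F

set_option autoImplicit false
set_option linter.unusedSectionVars false
set_option linter.unusedVariables false

namespace Pool.Agent.N926.Qg

open Finset Pool.Agent.N926.Sup Pool.Agent.N926.Sup2 Pool.Agent.N926.Qf

theorem lipG : Lip 2 G := by
  have h := (((lip1.mono (by norm_num : (2:ℤ) ≤ 3)).mul (lip2.mono (by norm_num : (2:ℤ) ≤ 3))).mul lip3).pow 2
  exact h.neg

theorem odd_div {a c : ℤ} (ha : a % 2 = 1) (hc : c % 2 = 1) : Dv 2 1 ((a:ℚ)/(c:ℚ) - 1) := by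
  have h := odd_unit2 hc
  have e : (a:ℚ)/(c:ℚ) - 1 = ((a - c : ℤ):ℚ)/(c:ℚ) := by
    have := h.2
    push_cast
    field_simp
  rw [e]
  refine Dv.div_unit ?_ h.1
  have : ((2:ℕ):ℤ)^1 ∣ a - c := by
    rw [pow_one]
    push_cast
    omega
  exact_mod_cast Dv.of_dvd (p := 2) (n := 1) this

theorem one_mul1 {a b : ℚ} (ha : Dv 2 1 (a - 1)) (hb : Dv 2 1 (b - 1)) : Dv 2 1 (a*b - 1) := by
  have e : a*b - 1 = (a-1) * (b-1) + (a-1) + (b-1) := by ring
  rw [e]
  exact (((ha.mul hb).mono (by norm_num)).add ha).add hb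

theorem one_neg {a : ℚ} (ha : Dv 2 1 (a - 1)) : Dv 2 1 (-a - 1) := by
  have e : -a - 1 = -(a - 1) - (2:ℕ) := by push_cast; ring
  rw [e]
  exact ha.neg.sub (Dv.p1 (p := 2))

theorem one_cube {a : ℚ} (ha : Dv 2 1 (a - 1)) : Dv 2 1 (a^3 - 1) := by
  have := one_mul1 (one_mul1 ha ha) ha
  exact dv_of_eq (by ring) this

theorem g1_one (x : ℕ) : Dv 2 1 (g1 x - 1) := by
  have := odd_div (a := 1 + 12*x) (c := 3 + 12*x) (by omega) (by omega)
  unfold g1
  exact dv_of_eq (by push_cast; ring) this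

theorem g2_one (x : ℕ) : Dv 2 1 (g2 x - 1) := by
  have := odd_div (a := 7 + 12*x) (c := 9 + 12*x) (by omega) (by omega)
  unfold g2
  exact dv_of_eq (by push_cast; ring) this

theorem g3_one (x : ℕ) : Dv 2 1 (g3 x - 1) := by
  have := odd_div (a := 5 + 6*x) (c := 3 + 6*x) (by omega) (by omega)
  unfold g3
  exact dv_of_eq (by push_cast; ring) this

theorem G_one (x : ℕ) : Dv 2 1 (G x - 1) :=
  one_neg (one_cube (one_mul1 (one_mul1 (g1_one x) (g2_one x)) (g3_one x)))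

/-- `∏ G` over `n` consecutive arguments is `1` modulo `2n` -/
theorem prodG (n : ℕ) : n ≠ 0 → ∀ x, Dv 2 (1 + v2 n) (∏ s ∈ range n, G (x+s) - 1) := by
  induction n using Nat.strong_induction_on with
  | _ n ih =>
    intro hn x
    have oddcase : ∀ m : ℕ, Dv 2 1 (∏ s ∈ range m, G (x+s) - 1) := by
      intro m
      induction m with
      | zero => left; simp
      | succ m ihm =>
        rw [prod_range_succ]
        exact one_mul1 ihm (G_one _)
    rcases Nat.even_or_odd' n with ⟨m, rfl | rfl⟩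
    · have hm : m ≠ 0 := by rintro rfl; exact hn rfl
      have hv : v2 (2*m) = 1 + v2 m := by
        rw [v2_mul (by norm_num) hm]
        congr 1
        unfold v2
        have : padicValNat 2 2 = 1 := padicValNat.self (by norm_num)
        rw [this]; rfl
      have h1 := ih m (by omega) hm x
      set A := ∏ s ∈ range m, G (x+s) with hA
      set A' := ∏ s ∈ range m, G (x+m+s) with hA'
      have e0 : ∏ s ∈ range (2*m), G (x+s) = A * A' := by
        rw [two_mul, prod_range_add]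
        congr 1
        exact prod_congr rfl fun s _ => by rw [add_assoc]
      have h2 := prod_sub_prod (p := 2) (n := 2 + v2 m) (range m) (fun s => G (x+m+s)) (fun s => G (x+s))
        (fun i _ => lipG.1 _) (fun i _ => lipG.1 _)
        (fun i _ => by
          have := lipG.2 (x+i) m hm
          rw [show x + i + m = x + m + i by ring] at this
          exact this)
      have h3 : Dv 2 (2 + v2 m) (A' - A) := h2.1
      have hAi : Dv 2 0 A := h2.2.2
      rw [e0]
      have e1 : A * A' - 1 = (A-1)*((A-1) + (2:ℕ)) + A*(A'-A) := by push_cast; ring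
      rw [e1, hv]
      have h4 : Dv 2 1 ((A-1) + (2:ℕ)) := (h1.mono (by have := v2_nonneg m; omega)).add (Dv.p1 (p := 2))
      exact ((h1.mul h4).mono (by omega)).add ((Dv.mul0' hAi h3).mono (by omega))
    · have hv : v2 (2*m+1) = 0 := by
        unfold v2
        rw [padicValNat.eq_zero_of_not_dvd (by omega)]
        rfl
      rw [hv]
      exact (oddcase _).mono (by norm_num)

theorem w0_int (x : ℕ) : Dv 2 0 (w0 x) := by
  unfold w0
  exact (prod_sub_prod (p := 2) (n := 0) (range x) G G (fun i _ => lipG.1 _) (fun i _ => lipG.1 _) (fun i _ => by rw [sub_self]; exact Dv.zero _)).2.1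

theorem lipw0 : Lip 1 w0 := by
  refine ⟨w0_int, fun x n hn => ?_⟩
  have e : w0 (x+n) - w0 x = w0 x * (∏ s ∈ range n, G (x+s) - 1) := by
    unfold w0
    rw [prod_range_add]
    ring
  rw [e]
  exact Dv.mul0' (w0_int x) (prodG n hn x)

/-- the inner sum -/
def B (φ : ℕ → ℚ) (x : ℕ) : ℚ :=
  φ (4*x) + rho (4*x) * φ (4*x+1) + rho (4*x) * rho (4*x+1) * φ (4*x+2) + rho (4*x) * rho (4*x+1) * rho (4*x+2) * φ (4*x+3)

theorem lip_shift {m : ℤ} {φ : ℕ → ℚ} (h : Lip m φ) (r : ℕ) : Lip (2+m) (fun x => φ (4*x+r)) := by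
  refine ⟨fun x => h.1 _, fun x n hn => ?_⟩
  have := h.2 (4*x+r) (4*n) (by omega)
  rw [show 4*x+r+4*n = 4*(x+n)+r by ring] at this
  simp only
  refine this.mono ?_
  rw [v2_mul (by norm_num) hn]
  have h4 : v2 4 = 2 := by
    unfold v2
    have : padicValNat 2 4 = 2 := by
      rw [show 4 = 2^2 by norm_num, padicValNat.prime_pow]
    rw [this]; rfl
  rw [h4]
  omega

theorem lip_r0 : Lip 3 (fun x => rho (4*x)) := by
  have : (fun x => rho (4*x)) = fun x => -(g1 x)^3 := funext rho0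
  rw [this]
  exact (lip1.pow 2).neg

theorem dv8 : Dv 2 3 (8:ℚ) := by
  have := Dv.p_pow (p := 2) 3
  exact_mod_cast dv_of_eq (by norm_num) this

theorem lip_r1 : Lip 3 (fun x => rho (4*x+1)) := by
  have : (fun x => rho (4*x+1)) = fun x => -(8 * (g4 x)^3) := funext rho1
  rw [this]
  exact ((Lip.const_mul (by norm_num) dv8 (lip4.pow 2)).mono (by norm_num)).neg

theorem lip_r2 : Lip 3 (fun x => rho (4*x+2)) := by
  have : (fun x => rho (4*x+2)) = fun x => -(g2 x)^3 := funext rho2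
  rw [this]
  exact (lip2.pow 2).neg

theorem lipB {φ : ℕ → ℚ} (h : Lip 1 φ) : Lip 2 (B φ) := by
  have s0 : Lip 3 (fun x => φ (4*x)) := lip_shift h 0
  have s1 := (lip_shift h 1).mono (by norm_num : (3:ℤ) ≤ 2+1)
  have s2 := (lip_shift h 2).mono (by norm_num : (3:ℤ) ≤ 2+1)
  have s3 := (lip_shift h 3).mono (by norm_num : (3:ℤ) ≤ 2+1)
  exact ((((s0.add (lip_r0.mul s1)).add ((lip_r0.mul lip_r1).mul s2)).add (((lip_r0.mul lip_r1).mul lip_r2).mul s3))).mono (by norm_num)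

theorem rho_even (x : ℕ) : Dv 2 1 (rho (2*x) - 1) := by
  have h := odd_div (a := 1 + 6*x) (c := 3 + 6*x) (by omega) (by omega)
  have h2 := one_neg (one_cube h)
  unfold rho
  refine dv_of_eq ?_ h2
  congr 3
  push_cast
  ring

theorem pair {φ : ℕ → ℚ} (h : Lip 1 φ) (x : ℕ) : Dv 2 1 (φ (2*x) + rho (2*x) * φ (2*x+1)) := by
  have h1 := h.2 (2*x) 1 (by norm_num)
  have hv : v2 1 = 0 := by unfold v2; simp
  rw [hv, add_zero] at h1
  have e : φ (2*x) + rho (2*x) * φ (2*x+1) = (2:ℕ) * φ (2*x) + (φ (2*x+1) - φ (2*x)) + (rho (2*x) - 1) * φ (2*x+1) := by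
    push_cast
    ring
  rw [e]
  exact ((Dv.mul0 (Dv.p1 (p := 2)) (h.1 _)).add h1).add (Dv.mul0 (rho_even x) (h.1 _))

theorem B_dv {φ : ℕ → ℚ} (h : Lip 1 φ) (x : ℕ) : Dv 2 1 (B φ x) := by
  have h1 := pair h (2*x)
  rw [show 2*(2*x) = 4*x by ring] at h1
  have h8 : Dv 2 1 (rho (4*x+1)) := by
    rw [rho1]
    exact ((Dv.mul0 dv8 ((lip4.pow 2).1 x)).mono (by norm_num)).neg
  have i0 := lip_r0.1 x
  have i2 := lip_r2.1 x
  unfold B
  have t2 : Dv 2 1 (rho (4*x) * rho (4*x+1) * φ (4*x+2)) := Dv.mul0 (Dv.mul0' i0 h8) (h.1 _)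
  have t3 : Dv 2 1 (rho (4*x) * rho (4*x+1) * rho (4*x+2) * φ (4*x+3)) := Dv.mul0 (Dv.mul0 (Dv.mul0' i0 h8) i2) (h.1 _)
  exact (h1.add t2).add t3

/-- the new weight -/
def nxt (φ : ℕ → ℚ) (x : ℕ) : ℚ := w0 x * B φ x / 2

theorem dv_half {m : ℤ} {a : ℚ} (h : Dv 2 (1+m) a) : Dv 2 m (a/2) := by
  have h2 : padicValRat 2 (2:ℚ) = 1 := by
    have := padicValRat.self (p := 2) (by norm_num)
    exact_mod_cast this
  exact (dv_div h (by norm_num) h2).mono (by omega)

theorem lip_nxt {φ : ℕ → ℚ} (h : Lip 1 φ) : Lip 1 (nxt φ) := by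
  refine ⟨fun x => dv_half (Dv.mul0' (w0_int x) (B_dv h x)), fun x n hn => ?_⟩
  have e : nxt φ (x+n) - nxt φ x = ((w0 (x+n) - w0 x) * B φ (x+n) + w0 x * (B φ (x+n) - B φ x))/2 := by
    unfold nxt
    ring
  rw [e]
  refine dv_half ?_
  refine Dv.add ?_ ?_
  · exact ((lipw0.2 x n hn).mul (B_dv h _)).mono (by omega)
  · exact (Dv.mul0' (w0_int x) ((lipB h).2 x n hn)).mono (by omega)

theorem step (φ : ℕ → ℚ) (K : ℕ) : ∑ k ∈ range (4*K), fb 2 k * φ k = 2 * ∑ x ∈ range K, fb 2 x * nxt φ x := by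
  induction K with
  | zero => simp
  | succ K ih =>
    rw [show 4*(K+1) = (((4*K+1)+1)+1)+1 by ring, sum_range_succ, sum_range_succ, sum_range_succ, sum_range_succ, ih, sum_range_succ]
    have e1 : 4*K+1+1 = 4*K+2 := rfl
    have e2 : 4*K+2+1 = 4*K+3 := rfl
    rw [e1, e2]
    have f1 := fb_rho (4*K)
    have f2 := fb_rho (4*K+1)
    have f3 := fb_rho (4*K+2)
    rw [e1] at f2
    rw [e2] at f3
    rw [f3, f2, f1, fb_w0]
    unfold nxt B
    ring

theorem base {φ : ℕ → ℚ} (h : Lip 1 φ) (K : ℕ) : Dv 2 1 (∑ k ∈ range (2*K), fb 2 k * φ k) := by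
  induction K with
  | zero => left; simp
  | succ K ih =>
    rw [show 2*(K+1) = (2*K+1)+1 by ring, sum_range_succ, sum_range_succ, add_assoc]
    refine ih.add ?_
    rw [fb_rho (2*K)]
    have e : fb 2 (2*K) * φ (2*K) + fb 2 (2*K) * rho (2*K) * φ (2*K+1) = fb 2 (2*K) * (φ (2*K) + rho (2*K) * φ (2*K+1)) := by ring
    rw [e]
    exact Dv.mul0' (fb_int _) (pair h K)

theorem two_main (a : ℕ) : ∀ (φ : ℕ → ℚ), Lip 1 φ → ∀ K : ℕ, Dv 2 ((a:ℤ)+1) (∑ k ∈ range (4^a*(2*K)), fb 2 k * φ k) := by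
  induction a with
  | zero =>
    intro φ h K
    rw [pow_zero, one_mul]
    exact (base h K).mono (by norm_num)
  | succ a ih =>
    intro φ h K
    rw [pow_succ', mul_assoc, step]
    have := (Dv.p1 (p := 2)).mul (ih (nxt φ) (lip_nxt h) K)
    push_cast at this ⊢
    exact this.mono (by omega)

theorem two_all (a K : ℕ) : Dv 2 ((a:ℤ)+1) (∑ k ∈ range (4^a*(2*K)), fb 2 k) := by
  have h : Lip 1 (fun _ => (1:ℚ)) := ⟨fun _ => Dv.one, fun x n _ => by rw [sub_self]; exact Dv.zero _⟩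
  have := two_main a (fun _ => 1) h K
  simpa using this

end Pool.Agent.N926.Qg
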